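import Pool.Agent.V1142.GR.Rat2

/-!
# Galois representations for one prime `ℓ` imply that the Satake parameters generate a number field

`F = ℚ` and `G = GL_n`.  `U` is a set containing almost all primes (the primes not in `Σ`), `P p` the
characteristic polynomial of the Satake parameter `s_p`, with coefficients in the algebraic closure of
`ℚ`.  `RepFor n U P ℓ ι`: there is a continuous representation over `ℚ̄_ℓ`, with traces in a finite
dimensional `ℚ_ℓ`-subspace of `ℚ̄_ℓ`, whose Frobenius classes are given by the `ι (s_p)`.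

If for one prime `ℓ` such representations exist for all embeddings `ι` of the algebraic closure of `ℚ`
into that of `ℚ_ℓ`, then there is a number field over which all `s_p`, `p ≠ ℓ` in `U`, are defined; if
this holds for two primes, then there is a number field over which all `s_p`, `p` in `U`, are defined.
-/

set_option autoImplicit false

namespace Pool.Agent.Results.MP_666dc0_nt.FieldOfRationality

open Polynomial Pool.Agent.V1142.GR

theorem result (n : ℕ) (hn : 0 < n) (U : Set ℕ) (hU : {p : ℕ | p.Prime ∧ p ∉ U}.Finite)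
    (P : ℕ → (AlgebraicClosure ℚ)[X]) :
    (∀ (ℓ : ℕ) [Fact ℓ.Prime], (∀ ι : AlgebraicClosure ℚ →+* PadicAlgCl ℓ, RepFor n U P ℓ ι) →
      ∃ (E : Type) (_ : Field E) (_ : NumberField E) (e : E →+* AlgebraicClosure ℚ),
        ∀ p ∈ U, p.Prime → p ≠ ℓ → ∀ i, (P p).coeff i ∈ e.range) ∧
    (∀ (ℓ₁ ℓ₂ : ℕ) [Fact ℓ₁.Prime] [Fact ℓ₂.Prime], ℓ₁ ≠ ℓ₂ →
      (∀ ι : AlgebraicClosure ℚ →+* PadicAlgCl ℓ₁, RepFor n U P ℓ₁ ι) →
      (∀ ι : AlgebraicClosure ℚ →+* PadicAlgCl ℓ₂, RepFor n U P ℓ₂ ι) →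
      ∃ (E : Type) (_ : Field E) (_ : NumberField E) (e : E →+* AlgebraicClosure ℚ),
        ∀ p ∈ U, p.Prime → ∀ i, (P p).coeff i ∈ e.range) :=
  ⟨fun _ _ h => nf_one hn U hU P h, fun _ _ _ _ hne h₁ h₂ => nf_two hn U hU P hne h₁ h₂⟩

end Pool.Agent.Results.MP_666dc0_nt.FieldOfRationality
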