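import Pool.Agent.V1142.PA.F2

/-!
# Patching for `GL_n` over a number field `F`

`G = GL_n` over a number field `F`, `S₀` is the set of finite places in `Σ`, and `s v` are the
eigenvalues of `ι(s_v)`.  `K i` (`i` in a set `I`) is a family of finite extensions of `F` in `F̄`
such that every finite extension of `F` meets some `K i` in `F` (`AmpleF`); for example infinitely
many finite extensions whose pairwise intersections are `F`.  Nothing is assumed on the degrees, and
the extensions need not be Galois or solvable.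

If for every `i` there is a continuous semisimple representation of `Gal(F̄/K_i)` over `ℚ̄_ℓ` which
corresponds to the `s v` at the places of relative degree one of `K_i` above the `v ∤ ℓ` outside `S₀`
and a finite set `S i`, then there is a continuous semisimple representation of `Gal(F̄/F)` which
corresponds to `s v` at every `v ∤ ℓ` outside `S₀` such that some `K_i` with `v ∉ S i` has a place
above `v` with completion `F_v`.
-/

set_option autoImplicit false

namespace Pool.Agent.Results.MP_666dc0_nt.PatchingGLn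

open NumberField IsDedekindDomain Pool.Agent.V1142.PA

theorem result (F : Type) [Field F] [NumberField F] (n : ℕ) (S₀ : Set (HeightOneSpectrum (𝓞 F)))
    (hS₀ : S₀.Finite) (ℓ : ℕ) [Fact ℓ.Prime] (s : HeightOneSpectrum (𝓞 F) → Fin n → PadicAlgCl ℓ) :
    (∀ (I : Type) (K : I → Ext F), (∀ i, FiniteDimensional F (K i)) → AmpleF K →
      ∀ S : I → Set (HeightOneSpectrum (𝓞 F)), (∀ i, (S i).Finite) →
        ((∀ i, RepOver (K i) (S₀ ∪ S i) ℓ s) →
          ∃ r : GF F →* GL (Fin n) (PadicAlgCl ℓ), Continuous r ∧ IsSemisimpleG r ∧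
            ∀ v ∉ S₀, (ℓ : 𝓞 F) ∉ v.asIdeal → (∃ i, v ∉ S i ∧ HasLocalDegreeOneF (K i) v) →
              CorrespondsF r v (s v)) ∧
        ((∀ v ∉ S₀, (ℓ : 𝓞 F) ∉ v.asIdeal → ∃ i, v ∉ S i ∧ HasLocalDegreeOneF (K i) v) →
          ((∀ i, RepOver (K i) (S₀ ∪ S i) ℓ s) ↔ RepF S₀ ℓ s))) ∧
    (∀ K : ℕ → Ext F, (∀ i j, i ≠ j → K i ⊓ K j = ⊥) → AmpleF K) := by
  refine ⟨fun I K hfin hK S hS => ?_, ample_of_pairwiseF⟩
  have h1 := fun h => exists_patchF S₀ hS₀ ℓ s K hfin hK S hS h
  refine ⟨h1, fun hcov => ⟨fun h => ?_, fun h i => ?_⟩⟩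
  · obtain ⟨r, h2, h3, h4⟩ := h1 h
    exact ⟨r, h2, h3, fun v hv hvℓ => h4 v hv hvℓ (hcov v hv hvℓ)⟩
  · exact restrict_repF Set.subset_union_left ℓ s (K i) (hfin i) h

end Pool.Agent.Results.MP_666dc0_nt.PatchingGLn
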