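import Pool.Agent.V1183.SV.Ext

/-!
# A sparse set of places decides the representation up to powers, for every L-group

`𝒢` is a linear algebraic group over `ℚ` and `Ĝ` a closed subgroup; for example `𝒢 = Ĝ ⋊ Gal(K/F)` is the
L-group of a connected reductive group `G` over the number field `F`, where `K / F` is a finite Galois
extension which splits `G`. The data of the automorphic representation are the classes `s P` (`P` a maximal
ideal of the ring of all algebraic integers, `v` the place of `F` below `P`) in `𝒢(ℂ)`.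

There is a sequence `T` of prime numbers, growing as fast as we want and splitting completely in an infinite
unramified tower `L / k`, such that for all `F`, `𝒢`, `Ĝ`, `s`, `ℓ` and all finite extensions `E` of `ℚ_ℓ`:
let `r : Γ_F → 𝒢(E)` be continuous and almost everywhere unramified, and let it correspond to `s` only up to
powers and only at the places of degree one above the `T i`. Then for every other such `r'` there is one
exponent `m` with `r(σ) ^ m ∼ r'(σ) ^ m` for all `σ` in `Γ_F`, and if the representation of the problem exists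
over `E`, then for one exponent `m` the element `r(Frob_v) ^ m` lies in the class of `s_v ^ m` for all places
`v` outside `Σ` with `v ∤ ℓ`.
-/

set_option autoImplicit false

namespace Pool.Agent.Results.MP_666dc0_nt.SparseReductive

open NumberField IntermediateField Module

attribute [local instance 10] DivisionRing.toRatAlgebra

/-- the absolute Galois group of `ℚ` -/
abbrev GQ : Type := Gal(AlgebraicClosure ℚ/ℚ)

/-- the ring of all algebraic integers -/
abbrev ZBar : Type := 𝓞 (AlgebraicClosure ℚ)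

/-- `τ` lies in the inertia group at the maximal ideal `P` of the ring of all algebraic integers -/
def Inertia (P : Ideal ZBar) (τ : GQ) : Prop := ∀ x : ZBar, τ • x - x ∈ P

/-- `σ` is a (geometric) Frobenius element at the maximal ideal `P` for the residue field with `q` elements:
it induces the inverse of `x ↦ x ^ q` on the residue field of `P` -/
def Frobenius (q : ℕ) (P : Ideal ZBar) (σ : GQ) : Prop := ∀ x : ZBar, x - (σ • x) ^ q ∈ P

/-- `L` is a totally real Galois extension of infinite degree of the real quadratic field `k`, unramified at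
all finite places, and a union of finite extensions of `ℚ` whose degrees are powers of two -/
structure UnramifiedTower (k L : IntermediateField ℚ (AlgebraicClosure ℚ)) : Prop where
  quadratic : finrank ℚ k = 2 ∧ ∃ s ∈ k,
    s ^ 2 = ((17 * 41 * 73 * 89 * 97 * 113 * 137 * 193 * 233 * 241 : ℕ) : AlgebraicClosure ℚ)
  le : k ≤ L
  infinite : ¬ FiniteDimensional ℚ L
  galois : ∀ σ : GQ, (∀ x ∈ k, σ x = x) → ∀ y ∈ L, σ y ∈ L
  unramified : ∀ q : ℕ, q.Prime → ∀ P : Ideal ZBar, P.IsMaximal → (q : ZBar) ∈ P → ∀ τ : GQ,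
    (∀ x ∈ k, τ x = x) → Inertia P τ → ∀ y ∈ L, τ y = y
  real : ∀ (φ : L →+* ℂ) (y : L), (φ y).im = 0
  two : ∀ y ∈ L, ∃ m : ℕ, finrank ℚ ℚ⟮y⟯ = 2 ^ m

/-- the prime number `q` is unramified and splits completely in `L`: all inertia elements and all Frobenius
elements above `q` fix `L` -/
def SplitsCompletely (q : ℕ) (L : IntermediateField ℚ (AlgebraicClosure ℚ)) : Prop :=
  ∀ P : Ideal ZBar, P.IsMaximal → (q : ZBar) ∈ P → ∀ σ : GQ, Inertia P σ ∨ Frobenius q P σ →
    ∀ y ∈ L, σ y = y

/-! ### Algebraic groups and class functions -/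

section group

variable {N : ℕ}

/-- the polynomials with rational coefficients in the entries of a matrix of size `N` -/
abbrev Poly (N : ℕ) : Type := MvPolynomial (Fin N × Fin N) ℚ

/-- the value of the polynomial `Φ` at the matrix `x` -/
noncomputable def val {R : Type} [Field R] [CharZero R] (Φ : Poly N) (x : Matrix (Fin N) (Fin N) R) : R :=
  MvPolynomial.eval₂ (Rat.castHom R) (fun v => x v.1 v.2) Φ

/-- the `R`-points of the closed subset of the space of matrices with the equations `I` -/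
def points (I : Set (Poly N)) (R : Type) [Field R] [CharZero R] : Set (Matrix (Fin N) (Fin N) R) :=
  {x | ∀ f ∈ I, val f x = 0}

/-- a linear algebraic group over `ℚ`, closed in the group `SL_N`, given by its equations -/
structure AlgGroup (N : ℕ) where
  /-- the equations -/
  eqs : Set (Poly N)
  det_one : ∀ x ∈ points eqs ℂ, x.det = 1
  one_mem : 1 ∈ points eqs ℂ
  mul_mem : ∀ x ∈ points eqs ℂ, ∀ y ∈ points eqs ℂ, x * y ∈ points eqs ℂ
  inv_mem : ∀ x ∈ points eqs ℂ, x⁻¹ ∈ points eqs ℂ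

/-- `Φ` is a class function: its restriction to `𝒢` is invariant under conjugation by the elements of `Ĝ` -/
def IsClassFunction (𝒢 Ghat : AlgGroup N) (Φ : Poly N) : Prop :=
  ∀ g ∈ points Ghat.eqs ℂ, ∀ x ∈ points 𝒢.eqs ℂ, val Φ (g * x * g⁻¹) = val Φ x

end group

/-! ### Representations of the absolute Galois group of `F` -/

section rep

variable (F : IntermediateField ℚ (AlgebraicClosure ℚ))

/-- the place of `F` below `P` -/
noncomputable def placeBelow (P : Ideal ZBar) : Ideal (𝓞 F) := P.comap (algebraMap (𝓞 F) ZBar)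

/-- the number of elements of the residue field of the place of `F` below `P` -/
noncomputable def residueCard (P : Ideal ZBar) : ℕ := Nat.card (𝓞 F ⧸ placeBelow F P)

variable {F} {ℓ : ℕ} [Fact ℓ.Prime] {E : IntermediateField ℚ_[ℓ] (PadicAlgCl ℓ)} {N : ℕ}

/-- the matrix of an element -/
noncomputable def matrix (r : F.fixingSubgroup →* GL (Fin N) E) (σ : F.fixingSubgroup) :
    Matrix (Fin N) (Fin N) E := r σ

/-- `r` is a continuous homomorphism from the absolute Galois group of `F` to `𝒢(E)`, unramified outside a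
finite set of places -/
def IsRep (𝒢 : AlgGroup N) (r : F.fixingSubgroup →* GL (Fin N) E) : Prop :=
  Continuous r ∧ (∀ σ, matrix r σ ∈ points 𝒢.eqs E) ∧
  ∃ S : Finset ℕ, ∀ q : ℕ, q.Prime → q ∉ S → ∀ P : Ideal ZBar, P.IsMaximal → (q : ZBar) ∈ P →
    ∀ τ : F.fixingSubgroup, Inertia P τ → r τ = 1

/-- `r` corresponds to the classes `s` up to powers, at the places of `F` of degree one above the prime
numbers `T i` for almost all `i`: for each Frobenius element `σ` some power `r(σ) ^ a` lies in the class of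
`(s P) ^ a`, that is, all class functions have the same values -/
def CorrespondsUpToPowers (T : ℕ → ℕ) (ι : E →+* ℂ) (𝒢 Ghat : AlgGroup N)
    (s : Ideal ZBar → Matrix (Fin N) (Fin N) ℂ) (r : F.fixingSubgroup →* GL (Fin N) E) : Prop :=
  ∃ i₀ : ℕ, ∀ i ≥ i₀, ∀ P : Ideal ZBar, P.IsMaximal → (T i : ZBar) ∈ P → residueCard F P = T i →
    ∀ σ : F.fixingSubgroup, Frobenius (residueCard F P) P σ → ∃ a : ℕ, 0 < a ∧
      ∀ Φ : Poly N, IsClassFunction 𝒢 Ghat Φ → ι (val Φ (matrix r σ ^ a)) = val Φ (s P ^ a)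

/-- the representation of the problem, with coefficients in `E`: at all places `v` of `F` outside the finite
set `S` with `v ∤ ℓ` it is unramified, and all class functions have the same value at the Frobenius elements
and at `s_v` -/
def Corresponds (ι : E →+* ℂ) (𝒢 Ghat : AlgGroup N) (S : Set (Ideal (𝓞 F)))
    (s : Ideal ZBar → Matrix (Fin N) (Fin N) ℂ) (r : F.fixingSubgroup →* GL (Fin N) E) : Prop :=
  ∀ P : Ideal ZBar, P.IsMaximal → placeBelow F P ∉ S → (ℓ : ZBar) ∉ P →
    (∀ τ : F.fixingSubgroup, Inertia P τ → r τ = 1) ∧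
    ∀ σ : F.fixingSubgroup, Frobenius (residueCard F P) P σ →
      ∀ Φ : Poly N, IsClassFunction 𝒢 Ghat Φ → ι (val Φ (matrix r σ)) = val Φ (s P)

end rep

/-! ### Lemmas -/

section lemmas

variable {N : ℕ}

theorem val_map {R S : Type} [Field R] [CharZero R] [Field S] [CharZero S] (ι : R →+* S) (Φ : Poly N)
    (x : Matrix (Fin N) (Fin N) R) : ι (val Φ x) = val Φ (x.map ι) := by
  unfold val
  rw [MvPolynomial.hom_eval₂]
  congr 1
  exact Subsingleton.elim _ _

/-- the polynomial `x ↦ Φ (x ^ k)` -/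
noncomputable def powPoly (k : ℕ) (Φ : Poly N) : Poly N :=
  MvPolynomial.bind₁ (fun v => ((Matrix.mvPolynomialX (Fin N) (Fin N) ℚ) ^ k) v.1 v.2) Φ

theorem val_powPoly {R : Type} [Field R] [CharZero R] (k : ℕ) (Φ : Poly N)
    (x : Matrix (Fin N) (Fin N) R) : val (powPoly k Φ) x = val Φ (x ^ k) := by
  unfold val powPoly
  have h0 := MvPolynomial.eval₂Hom_bind₁ (Rat.castHom R) (fun v : Fin N × Fin N => x v.1 v.2)
    (fun v => ((Matrix.mvPolynomialX (Fin N) (Fin N) ℚ) ^ k) v.1 v.2) Φ
  rw [MvPolynomial.coe_eval₂Hom] at h0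
  rw [h0]
  refine congrArg (fun w => MvPolynomial.eval₂ (Rat.castHom R) w Φ) (funext fun v => ?_)
  have h1 : (MvPolynomial.eval₂Hom (Rat.castHom R) (fun v : Fin N × Fin N => x v.1 v.2)).mapMatrix
      (Matrix.mvPolynomialX (Fin N) (Fin N) ℚ) = x := by
    ext i j
    simp [Matrix.mvPolynomialX]
  have h2 := congrFun (congrFun (map_pow
    (MvPolynomial.eval₂Hom (Rat.castHom R) (fun v : Fin N × Fin N => x v.1 v.2)).mapMatrix
    (Matrix.mvPolynomialX (Fin N) (Fin N) ℚ) k) v.1) v.2
  rw [h1] at h2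
  exact h2

theorem pow_mem (𝒢 : AlgGroup N) {x : Matrix (Fin N) (Fin N) ℂ} (hx : x ∈ points 𝒢.eqs ℂ) (k : ℕ) :
    x ^ k ∈ points 𝒢.eqs ℂ := by
  induction k with
  | zero => rw [pow_zero]; exact 𝒢.one_mem
  | succ k ih => rw [pow_succ]; exact 𝒢.mul_mem _ ih _ hx

theorem powPoly_class {𝒢 Ghat : AlgGroup N} {Φ : Poly N} (h : IsClassFunction 𝒢 Ghat Φ) (k : ℕ) :
    IsClassFunction 𝒢 Ghat (powPoly k Φ) := by
  intro g hg x hx
  have hdet : IsUnit g.det := by rw [Ghat.det_one g hg]; exact isUnit_one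
  rw [val_powPoly, val_powPoly]
  have h1 : (g * x * g⁻¹) ^ k = g * x ^ k * g⁻¹ := by
    induction k with
    | zero => rw [pow_zero, pow_zero, mul_one, Matrix.mul_nonsing_inv g hdet]
    | succ k ih =>
      rw [pow_succ, ih, pow_succ]
      calc g * x ^ k * g⁻¹ * (g * x * g⁻¹) = g * x ^ k * (g⁻¹ * g) * x * g⁻¹ := by
            simp only [Matrix.mul_assoc]
        _ = _ := by
            rw [Matrix.nonsing_inv_mul g hdet]
            simp only [Matrix.mul_assoc, Matrix.one_mul]
  rw [h1]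
  exact h g hg _ (pow_mem 𝒢 hx k)

theorem card_upper (A : Type) [CommRing A] [IsDomain A] (q : ℕ) (f : Polynomial A) (hX : f ≠ 0)
    (hdeg : f.natDegree = q) (hroot : ∀ y : A, f.eval y = 0) : Finite A ∧ Nat.card A ≤ q := by
  classical
  have hsub : (Set.univ : Set A) ⊆ (f.roots.toFinset : Set A) := by
    intro y _
    rw [Finset.mem_coe, Multiset.mem_toFinset, Polynomial.mem_roots hX, Polynomial.IsRoot.def]
    exact hroot y
  have h1 : (f.roots.toFinset : Set A).Finite := Finset.finite_toSet _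
  refine ⟨Set.finite_univ_iff.1 (h1.subset hsub), ?_⟩
  have h2 : Nat.card A = (Set.univ : Set A).ncard := (Set.ncard_univ A).symm
  have h3 := Set.ncard_le_ncard hsub h1
  rw [Set.ncard_coe_finset] at h3
  have h4 := Multiset.toFinset_card_le f.roots
  have h5 := Polynomial.card_roots' f
  omega

theorem card_lower (A : Type) [CommRing A] [Nontrivial A] (q : ℕ) [CharP A q] (h : Finite A) :
    q ≤ Nat.card A := by
  have h3 := Nat.card_le_card_of_injective _ (ZMod.castHom_injective A (n := q))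
  rwa [Nat.card_zmod] at h3

theorem card_eq_of_pow (A : Type) [CommRing A] [IsDomain A] (q : ℕ) (hq : q.Prime) (h0 : (q : A) = 0)
    (hroot : ∀ y : A, y ^ q = y) : Nat.card A = q := by
  have hchar : CharP A q := (CharP.charP_iff_prime_eq_zero hq).2 h0
  have hd : (Polynomial.X ^ q - Polynomial.X : Polynomial A).natDegree = q := by
    rw [Polynomial.natDegree_sub_eq_left_of_natDegree_lt]
    · exact Polynomial.natDegree_X_pow q
    · rw [Polynomial.natDegree_X, Polynomial.natDegree_X_pow]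
      exact hq.one_lt
  have hX : (Polynomial.X ^ q - Polynomial.X : Polynomial A) ≠ 0 := by
    intro h
    rw [h, Polynomial.natDegree_zero] at hd
    exact hq.ne_zero hd.symm
  obtain ⟨h1, h2⟩ := card_upper A q (Polynomial.X ^ q - Polynomial.X) hX hd (fun y => by
    rw [Polynomial.eval_sub, Polynomial.eval_pow, Polynomial.eval_X, hroot y, sub_self])
  exact le_antisymm h2 (card_lower A q h1)

/-- the general form of the next statement -/
theorem card_quot {R S : Type} [CommRing R] [CommRing S] (φ : R →+* S) (P : Ideal S) (hP : P.IsPrime)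
    (q : ℕ) (hq : q.Prime) (hqP : (q : S) ∈ P) (h : ∀ x : R, φ x - φ x ^ q ∈ P) :
    Nat.card (R ⧸ P.comap φ) = q := by
  have hprime : (P.comap φ).IsPrime := Ideal.comap_isPrime _ _
  have hdom : IsDomain (R ⧸ P.comap φ) := Ideal.Quotient.isDomain _
  refine card_eq_of_pow (R ⧸ P.comap φ) q hq ?_ ?_
  · have hqm : (q : R) ∈ P.comap φ := by
      rw [Ideal.mem_comap, map_natCast]
      exact hqP
    have := Ideal.Quotient.eq_zero_iff_mem.2 hqm
    rwa [map_natCast] at this
  · intro y
    obtain ⟨x, rfl⟩ := Ideal.Quotient.mk_surjective y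
    rw [← map_pow]
    symm
    rw [Ideal.Quotient.eq, Ideal.mem_comap, map_sub, map_pow]
    exact h x

/-- a Frobenius element over `ℚ` which fixes `F` shows that the place of `F` has degree one -/
theorem residueCard_eq {F : IntermediateField ℚ (AlgebraicClosure ℚ)} {q : ℕ} (hq : q.Prime)
    {P : Ideal ZBar} (hP : P.IsMaximal) (hqP : (q : ZBar) ∈ P) {σ : GQ} (hσ : σ ∈ F.fixingSubgroup)
    (h : Frobenius q P σ) : residueCard F P = q := by
  refine card_quot (algebraMap (𝓞 F) ZBar) P hP.isPrime q hq hqP fun x => ?_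
  have h2 := h (algebraMap (𝓞 F) ZBar x)
  have h3 : σ • algebraMap (𝓞 F) ZBar x = algebraMap (𝓞 F) ZBar x := by
    apply RingOfIntegers.ext
    exact (IntermediateField.mem_fixingSubgroup_iff F σ).1 hσ (x : F) (x : F).2
  rwa [h3] at h2

/-- a proper ideal contains at most one prime number -/
theorem two_primes {R : Type} [CommRing R] {I : Ideal R} (hI : I ≠ ⊤) {q q' : ℕ} (hq : q.Prime)
    (hq' : q'.Prime) (h : (q : R) ∈ I) (h' : (q' : R) ∈ I) : q = q' := by
  by_contra hne
  obtain ⟨a, b, hab⟩ := Nat.isCoprime_iff_coprime.2 ((Nat.coprime_primes hq hq').2 hne)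
  apply hI
  rw [Ideal.eq_top_iff_one]
  have h1 : (1 : R) = (a : R) * (q : R) + (b : R) * (q' : R) := by
    have := congrArg (Int.cast : ℤ → R) hab
    push_cast at this
    exact this.symm
  rw [h1]
  exact I.add_mem (I.mul_mem_left _ h) (I.mul_mem_left _ h')

/-- the prime numbers in the ideals of a finite set -/
theorem finite_bad {R : Type} [CommRing R] {S : Set (Ideal R)} (hS : S.Finite) :
    {q : ℕ | q.Prime ∧ ∃ I ∈ S, I ≠ ⊤ ∧ (q : R) ∈ I}.Finite := by
  have h1 : {q : ℕ | q.Prime ∧ ∃ I ∈ S, I ≠ ⊤ ∧ (q : R) ∈ I} ⊆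
      ⋃ I ∈ S, {q : ℕ | q.Prime ∧ I ≠ ⊤ ∧ (q : R) ∈ I} := by
    rintro q ⟨hq, I, hI, h2, h3⟩
    exact Set.mem_biUnion hI ⟨hq, h2, h3⟩
  refine (hS.biUnion fun I _ => ?_).subset h1
  exact Set.Subsingleton.finite fun q hq q' hq' => two_primes hq.2.1 hq.1 hq'.1 hq.2.2 hq'.2.2

section vals

variable {F : IntermediateField ℚ (AlgebraicClosure ℚ)} {ℓ : ℕ} [Fact ℓ.Prime]
  {E : IntermediateField ℚ_[ℓ] (PadicAlgCl ℓ)}

theorem matrix_pow (r : F.fixingSubgroup →* GL (Fin N) E) (σ : F.fixingSubgroup) (k : ℕ) :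
    matrix r (σ ^ k) = matrix r σ ^ k := by
  unfold matrix
  rw [map_pow, Units.val_pow_eq_pow_val]

theorem match_pow {𝒢 Ghat : AlgGroup N} {ι : E →+* ℂ} {x : Matrix (Fin N) (Fin N) E}
    {y : Matrix (Fin N) (Fin N) ℂ} {a : ℕ}
    (h : ∀ Φ : Poly N, IsClassFunction 𝒢 Ghat Φ → ι (val Φ (x ^ a)) = val Φ (y ^ a)) (k : ℕ)
    {Φ : Poly N} (hΦ : IsClassFunction 𝒢 Ghat Φ) : ι (val Φ (x ^ (a * k))) = val Φ (y ^ (a * k)) := by
  have h1 := h (powPoly k Φ) (powPoly_class hΦ k)
  rw [val_powPoly, val_powPoly, ← pow_mul, ← pow_mul] at h1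
  exact h1

end vals

end lemmas

/-- **Main result.** -/
theorem result (f : ℕ → ℕ) :
    ∃ (T : ℕ → ℕ) (k L : IntermediateField ℚ (AlgebraicClosure ℚ)),
      (∀ i, (T i).Prime ∧ T i < T (i + 1) ∧ f (T i) < T (i + 1)) ∧
      UnramifiedTower k L ∧ (∀ i, SplitsCompletely (T i) L) ∧
      ∀ (F : IntermediateField ℚ (AlgebraicClosure ℚ)), FiniteDimensional ℚ F →
      ∀ (ℓ : ℕ) [Fact ℓ.Prime] (E : IntermediateField ℚ_[ℓ] (PadicAlgCl ℓ)),
        FiniteDimensional ℚ_[ℓ] E →
      ∀ (ι : E →+* ℂ) (N : ℕ) (𝒢 Ghat : AlgGroup N) (s : Ideal ZBar → Matrix (Fin N) (Fin N) ℂ)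
        (r : F.fixingSubgroup →* GL (Fin N) E),
        IsRep 𝒢 r → CorrespondsUpToPowers T ι 𝒢 Ghat s r →
        (∀ r' : F.fixingSubgroup →* GL (Fin N) E, IsRep 𝒢 r' →
          CorrespondsUpToPowers T ι 𝒢 Ghat s r' →
          ∃ m : ℕ, 0 < m ∧ ∀ (σ : F.fixingSubgroup) (Φ : Poly N), IsClassFunction 𝒢 Ghat Φ →
            val Φ (matrix r σ ^ m) = val Φ (matrix r' σ ^ m)) ∧
        (∀ S : Set (Ideal (𝓞 F)), S.Finite → ∀ r' : F.fixingSubgroup →* GL (Fin N) E,
          Continuous r' → (∀ σ, matrix r' σ ∈ points 𝒢.eqs E) → Corresponds ι 𝒢 Ghat S s r' →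
          ∃ m : ℕ, 0 < m ∧ ∀ P : Ideal ZBar, P.IsMaximal → placeBelow F P ∉ S → (ℓ : ZBar) ∉ P →
            ∀ σ : F.fixingSubgroup, Frobenius (residueCard F P) P σ →
              ∀ Φ : Poly N, IsClassFunction 𝒢 Ghat Φ →
                ι (val Φ (matrix r σ ^ m)) = val Φ (s P ^ m)) := by
  obtain ⟨T, k, L, hT1, hT2, htow, hrep⟩ := Pool.Agent.V1183.SV.mainE f
  have hTge : ∀ j, j < T j := by
    intro j
    induction j with
    | zero => exact (hT1 0).pos
    | succ j ih =>
      have := hT2 j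
      omega
  refine ⟨T, k, L, fun i => ⟨hT1 i, ?_, ?_⟩, ⟨⟨htow.rank, htow.sqrt⟩, htow.le, htow.inf, htow.galois,
    htow.unr, htow.real, htow.two⟩, ?_, ?_⟩
  · have := hT2 i
    omega
  · have := hT2 i
    have := (hT1 i).pos
    omega
  · intro i P hP hTP σ hσ
    rcases hσ with hσ | hσ
    · exact htow.unrT i P hP hTP σ hσ
    · exact htow.split i P hP hTP σ hσ
  · intro F hF ℓ hℓ E hE ι N 𝒢 Ghat s r hr hmatch
    have key : ∀ r' : F.fixingSubgroup →* GL (Fin N) E, IsRep 𝒢 r' →
        CorrespondsUpToPowers T ι 𝒢 Ghat s r' →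
        ∃ m : ℕ, 0 < m ∧ ∀ (σ : F.fixingSubgroup) (Φ : Poly N), IsClassFunction 𝒢 Ghat Φ →
          val Φ (matrix r σ ^ m) = val Φ (matrix r' σ ^ m) := by
      intro r' hr' hmatch'
      have hfam : ∀ s : Fin 2, IsRep 𝒢 (if s = 0 then r else r') := by
        intro s
        split_ifs
        · exact hr
        · exact hr'
      obtain ⟨V, hV, hVΓ, h1⟩ := hrep F.fixingSubgroup (IntermediateField.fixingSubgroup_isOpen F) ℓ E
        hE 2 (fun _ => N) (fun s => if s = 0 then r else r') (fun s => (hfam s).1) (fun s => by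
          obtain ⟨S, hS⟩ := (hfam s).2.2
          exact ⟨S, fun q hq hqS P hP hqP τ hτ hτP => hS q hq hqS P hP hqP ⟨τ, hτ⟩ hτP⟩)
      have hev : ∀ (Φ : Poly N) (γ : F.fixingSubgroup), MvPolynomial.eval (fun v : Σ _ : Fin 2, Fin N × Fin N =>
          (((if v.1 = 0 then r else r') γ : GL (Fin N) E) : Matrix (Fin N) (Fin N) E) v.2.1 v.2.2)
          (MvPolynomial.map (Rat.castHom E) (MvPolynomial.rename
            (fun v => (⟨0, v⟩ : Σ _ : Fin 2, Fin N × Fin N)) Φ) -
            MvPolynomial.map (Rat.castHom E) (MvPolynomial.rename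
            (fun v => (⟨1, v⟩ : Σ _ : Fin 2, Fin N × Fin N)) Φ)) =
          val Φ (matrix r γ) - val Φ (matrix r' γ) := by
        intro Φ γ
        rw [map_sub, MvPolynomial.eval_map, MvPolynomial.eval_map, MvPolynomial.eval₂_rename,
          MvPolynomial.eval₂_rename]
        rfl
      have hval : ∀ Φ : Poly N, IsClassFunction 𝒢 Ghat Φ → ∀ γ : F.fixingSubgroup, (γ : GQ) ∈ V →
          val Φ (matrix r γ) = val Φ (matrix r' γ) := by
        intro Φ hΦ γ hγ
        have h2 := h1 _ (by
          obtain ⟨i0, hi0⟩ := hmatch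
          obtain ⟨i1, hi1⟩ := hmatch'
          refine ⟨max i0 i1, fun i hi P hP hTP σ hσ hσP => ?_⟩
          have hq : residueCard F P = T i := residueCard_eq (hT1 i) hP hTP hσ hσP
          have hσP' : Frobenius (residueCard F P) P ((⟨σ, hσ⟩ : F.fixingSubgroup) : GQ) := by
            rw [hq]
            exact hσP
          obtain ⟨a, ha, h3⟩ := hi0 i ((le_max_left _ _).trans hi) P hP hTP hq ⟨σ, hσ⟩ hσP'
          obtain ⟨a', ha', h3'⟩ := hi1 i ((le_max_right _ _).trans hi) P hP hTP hq ⟨σ, hσ⟩ hσP'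
          refine ⟨a * a', (Nat.mul_pos ha ha').ne', fun l _ => ?_⟩
          refine (hev Φ _).trans ?_
          rw [sub_eq_zero]
          apply ι.injective
          rw [matrix_pow, matrix_pow, show a * a' * l = a * (a' * l) by ring,
            match_pow h3 (a' * l) hΦ, show a * (a' * l) = a' * (a * l) by ring,
            match_pow h3' (a * l) hΦ]) (γ : GQ) hγ γ.2
        exact sub_eq_zero.1 ((hev Φ γ).symm.trans h2)
      have hfin : Finite (GQ ⧸ V) := Subgroup.quotient_finite_of_isOpen V hV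
      have hidx : V.index ≠ 0 := (Subgroup.finiteIndex_of_finite_quotient (H := V)).index_ne_zero
      refine ⟨V.index.factorial, Nat.factorial_pos _, fun σ Φ hΦ => ?_⟩
      obtain ⟨n, hn, hnle, hn2⟩ := Subgroup.exists_pow_mem_of_index_ne_zero hidx (σ : GQ)
      obtain ⟨c, hc⟩ := Nat.dvd_factorial hn hnle
      rw [← matrix_pow, ← matrix_pow]
      refine hval Φ hΦ _ ?_
      rw [hc, pow_mul]
      exact V.pow_mem hn2 c
    refine ⟨key, ?_⟩
    intro S hS r' hc hpts hcorr
    set bad : Set ℕ := {q : ℕ | q.Prime ∧ ∃ I ∈ S, I ≠ ⊤ ∧ (q : 𝓞 F) ∈ I} with hbad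
    have hfin : bad.Finite := finite_bad hS
    have hgood : ∀ q : ℕ, q.Prime → q ∉ bad → q ≠ ℓ → ∀ P : Ideal ZBar, P.IsMaximal →
        (q : ZBar) ∈ P → placeBelow F P ∉ S ∧ (ℓ : ZBar) ∉ P := by
      intro q hq hqb hqℓ P hP hqP
      constructor
      · intro h
        apply hqb
        refine ⟨hq, _, h, ?_, ?_⟩
        · exact (Ideal.comap_isPrime (algebraMap (𝓞 F) ZBar) P (H := hP.isPrime)).ne_top
        · unfold placeBelow
          rw [Ideal.mem_comap, map_natCast]
          exact hqP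
      · intro h
        exact hqℓ (two_primes hP.ne_top hq hℓ.out hqP h)
    have hr' : IsRep 𝒢 r' := by
      refine ⟨hc, hpts, hfin.toFinset ∪ {ℓ}, fun q hq hqS P hP hqP τ hτ => ?_⟩
      rw [Finset.mem_union, not_or, Set.Finite.mem_toFinset, Finset.mem_singleton] at hqS
      obtain ⟨h1, h2⟩ := hgood q hq hqS.1 hqS.2 P hP hqP
      exact (hcorr P hP h1 h2).1 τ hτ
    have hmatch' : CorrespondsUpToPowers T ι 𝒢 Ghat s r' := by
      obtain ⟨M, hM⟩ := (hfin.insert ℓ).bddAbove
      refine ⟨M + 1, fun i hi P hP hTP hq σ hσ => ⟨1, one_pos, fun Φ hΦ => ?_⟩⟩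
      have h3 := hTge i
      have h4 : T i ∉ bad := by
        intro h
        have := hM (Set.mem_insert_of_mem ℓ h)
        omega
      have h5 : T i ≠ ℓ := by
        intro h
        have := hM (Set.mem_insert ℓ bad)
        omega
      obtain ⟨h1, h2⟩ := hgood (T i) (hT1 i) h4 h5 P hP hTP
      rw [pow_one, pow_one]
      exact (hcorr P hP h1 h2).2 σ hσ Φ hΦ
    obtain ⟨m, hm, h1⟩ := key r' hr' hmatch'
    refine ⟨m, hm, fun P hP hPS hPℓ σ hσ Φ hΦ => ?_⟩
    rw [h1 σ Φ hΦ, ← val_powPoly, ← val_powPoly]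
    exact (hcorr P hP hPS hPℓ).2 σ hσ _ (powPoly_class hΦ m)

end Pool.Agent.Results.MP_666dc0_nt.SparseReductive
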