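import Pool.Agent.V1142.PA.B2

/-!
# Two extensions suffice, for `GL_n` over a number field `F`

`G = GL_n` over a number field `F`, `Z` is the set of finite places in `Σ`, and `s v` are the
eigenvalues of `ι(s_v)`.  Let `L₀` be a finite extension of `F` in `F̄` and `r₀` a continuous
semisimple representation of `Gal(F̄/L₀)` on `ℚ̄_ℓ ^ n` which corresponds to the `s v` at the places of
relative degree one of `L₀` above the places outside `Z`, `ℓ` and a finite set `S₀`.

Then there is a finite extension `M` of `F`, depending only on this, such that for every finite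
extension `L₁` of `F` with `L₁ ∩ M = F` and every representation `r₁` of `Gal(F̄/L₁)` of the same kind
(with a finite set `S₁`) there is a continuous semisimple representation `r` of `Gal(F̄/F)` which
extends both up to isomorphism, is irreducible if `r₀` or `r₁` is, and corresponds to `s v` at all `v`
outside `Z` and `ℓ` at which (and outside `S_i`) `L_i` has a place with the same completion as `F`, for
`i = 0` or `i = 1`.
-/

set_option autoImplicit false

namespace Pool.Agent.Results.MP_666dc0_nt.TwoExtensionsGLn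

open NumberField IsDedekindDomain Pool.Agent.V1142.PA

theorem result (F : Type) [Field F] [NumberField F] (n : ℕ) (l : ℕ) [Fact l.Prime]
    (Z : Set (HeightOneSpectrum (𝓞 F))) (hZ : Z.Finite)
    (s : HeightOneSpectrum (𝓞 F) → Fin n → PadicAlgCl l)
    (L₀ : Ext F) (hL₀ : FiniteDimensional F L₀) (r₀ : GE L₀ →* GL (Fin n) (PadicAlgCl l))
    (hr₀ : Continuous r₀) (hss₀ : IsSemisimpleG r₀) (S₀ : Set (HeightOneSpectrum (𝓞 F)))
    (hS₀ : S₀.Finite)
    (hc₀ : ∀ v ∉ Z ∪ S₀, (l : 𝓞 F) ∉ v.asIdeal → CorrespondsDegreeOneF r₀ v (s v)) :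
    ∃ M : Ext F, FiniteDimensional F M ∧ ∀ L₁ : Ext F, FiniteDimensional F L₁ → L₁ ⊓ M = ⊥ →
      ∀ r₁ : GE L₁ →* GL (Fin n) (PadicAlgCl l), Continuous r₁ → IsSemisimpleG r₁ →
      ∀ S₁ : Set (HeightOneSpectrum (𝓞 F)), S₁.Finite →
      (∀ v ∉ Z ∪ S₁, (l : 𝓞 F) ∉ v.asIdeal → CorrespondsDegreeOneF r₁ v (s v)) →
      ∃ r : GF F →* GL (Fin n) (PadicAlgCl l), Continuous r ∧ IsSemisimpleG r ∧
        (∃ h : GL (Fin n) (PadicAlgCl l), ∀ g : GE L₀, r g = h * r₀ g * h⁻¹) ∧
        (∃ h : GL (Fin n) (PadicAlgCl l), ∀ g : GE L₁, r g = h * r₁ g * h⁻¹) ∧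
        (IrrN r₀ ∨ IrrN r₁ → IrrN r) ∧
        ∀ v ∉ Z, (l : 𝓞 F) ∉ v.asIdeal →
          (v ∉ S₀ ∧ HasLocalDegreeOneF L₀ v) ∨ (v ∉ S₁ ∧ HasLocalDegreeOneF L₁ v) →
          CorrespondsF r v (s v) :=
  two_extC_main l Z hZ s L₀ hL₀ r₀ hr₀ hss₀ S₀ hS₀ hc₀

end Pool.Agent.Results.MP_666dc0_nt.TwoExtensionsGLn
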